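import Pool.Agent.X32.Fam.Sieve

/-!
# All admissible families: almost primes for every large `n`, in all short intervals

For every `D` and `ε > 0` there are `t`, `κ > 0`, `K > 0`, which depend only on `D` and `ε`, such that for every
admissible family `f_1, ..., f_m` in `ℤ[x, y]` with `deg f_1 + ... + deg f_m = D` and every large `n` the following
holds: in every interval `(A, B]` with `B < n`, `B - A ≥ n ^ ε`, the number of the `x` for which every
`|f_k(x, n - x)|` is a product of at most `t deg f_k` primes, all larger than `n ^ (1 / t)`, is between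
`κ (B - A) V` and `K (B - A) V`, where `V = ∏_{p ≤ n} (1 - ω(p) / p)` is the product of the local densities.
-/

set_option autoImplicit false

namespace Pool.Agent.Results.MP_0da313_nt.AlmostPrimesShort

open Finset

/-- the value `f(x, n - x)` -/
noncomputable def val (f : MvPolynomial (Fin 2) ℤ) (n : ℕ) (x : ℤ) : ℤ := MvPolynomial.eval ![x, n - x] f

/-- an admissible family: nonconstant polynomials such that, for all large `n`, the one-variable polynomials
`f_k(X, n - X)` are irreducible in `ℤ[X]` and no prime divides their product for every integer `x` -/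
def Admissible {m : ℕ} (f : Fin m → MvPolynomial (Fin 2) ℤ) : Prop :=
  (∀ k, ∀ c : ℤ, f k ≠ MvPolynomial.C c) ∧ ∃ N₀ : ℕ, ∀ n : ℕ, N₀ ≤ n →
    (∀ k, Irreducible (MvPolynomial.aeval ![Polynomial.X, Polynomial.C (n : ℤ) - Polynomial.X] (f k) :
      Polynomial ℤ)) ∧
    ∀ p : ℕ, p.Prime → ∃ x : ℤ, ¬ (p : ℤ) ∣ ∏ k, val (f k) n x

/-- `ω_n(p)`: the number of the residues `x` modulo `p` with `f_1(x, n - x) ... f_m(x, n - x) ≡ 0` -/
noncomputable def omega {m : ℕ} (f : Fin m → MvPolynomial (Fin 2) ℤ) (n p : ℕ) : ℕ :=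
  ((range p).filter (fun x : ℕ => (p : ℤ) ∣ ∏ k, val (f k) n x)).card

/-- the product of `1 - ω_n(p) / p` over the primes `p ≤ n` -/
noncomputable def V {m : ℕ} (f : Fin m → MvPolynomial (Fin 2) ℤ) (n : ℕ) : ℝ :=
  ∏ p ∈ (Icc 1 n).filter Nat.Prime, (1 - (omega f n p : ℝ) / p)

/-- `|v| > 1`, and `|v|` is a product of at most `r` primes, all of them larger than `y` -/
def Almost (r : ℕ) (y : ℝ) (v : ℤ) : Prop :=
  1 < |v| ∧ v.natAbs.primeFactorsList.length ≤ r ∧ ∀ q : ℕ, q.Prime → (q : ℤ) ∣ v → y < q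

open Classical in
/-- the integers `x` of `(A, B]` such that every `|f_k(x, n - x)|` is a product of at most `t deg f_k` primes, all
larger than `n ^ (1 / t)` -/
noncomputable def Good {m : ℕ} (f : Fin m → MvPolynomial (Fin 2) ℤ) (t n A B : ℕ) : Finset ℕ :=
  (Ioc A B).filter (fun x : ℕ => ∀ k, Almost (t * (f k).totalDegree) ((n : ℝ) ^ (1 / (t : ℝ))) (val (f k) n x))

/-- The number of the representations `n = x + y` with `x` in a short interval for which all the `|f_k(x, y)|` are
almost primes has the order of magnitude `(B - A) V`, for every admissible family and every large `n`; the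
constants depend only on the sum `D` of the degrees and on the exponent `ε` of the length of the interval. -/
theorem result (D : ℕ) (ε : ℝ) (hε : 0 < ε) : ∃ t : ℕ, 1 ≤ t ∧ ∃ κ K : ℝ, 0 < κ ∧ 0 < K ∧
    ∀ (m : ℕ) (f : Fin m → MvPolynomial (Fin 2) ℤ), 1 ≤ m → Admissible f → ∑ k, (f k).totalDegree = D →
    ∃ n₀ : ℕ, ∀ n : ℕ, n₀ ≤ n → κ / Real.log n ^ D ≤ V f n ∧
      ∀ A B : ℕ, B < n → (n : ℝ) ^ ε ≤ (B : ℝ) - A →
        κ * ((B : ℝ) - A) * V f n ≤ ((Good f t n A B).card : ℝ) ∧
        ((Good f t n A B).card : ℝ) ≤ K * ((B : ℝ) - A) * V f n := by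
  obtain ⟨t, ht, κ, K, hκ, hK, H⟩ := Pool.Agent.X32.Fam.sieve D ε hε
  refine ⟨t, ht, κ, K, hκ, hK, fun m f hm hf hD => ?_⟩
  obtain ⟨hc, N₀, hN⟩ := hf
  have hf' : Pool.Agent.X32.Fam.Admissible f := by
    refine ⟨hc, N₀, fun n hn => ⟨(hN n hn).1, fun p hp => ?_⟩⟩
    obtain ⟨x, hx⟩ := (hN n hn).2 p hp
    refine ⟨x, ?_⟩
    simp only [Pool.Agent.X32.Fam.eval_gp]
    exact hx
  exact H m f hm hf' hD

end Pool.Agent.Results.MP_0da313_nt.AlmostPrimesShort
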