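import Pool.Agent.X10.PC.Main

set_option autoImplicit false

/-!
# Lines `x + y = n`: many prescribed polynomial values that are composite at once (helper10)

Let `f₁, ..., f_r` be irreducible nonconstant integer polynomials in one variable; the members of the family are
`F_s(x, y) = f_{j(s)}(α_s x + β_s y + γ_s)`. There are `c > 0`, `X₀` such that for all `X ≥ X₀`, EVERY `n` and EVERY
list of members with `α_s ≠ β_s`, `|α_s - β_s|, |β_s n + γ_s| ≤ exp(log² X)` and
`∑ (|α_s - β_s|/φ(|α_s - β_s|))^deg ≤ c log X log log X`: every interval `(M, M + X]` contains `x` such that with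
`y = n - x` none of the numbers `F_s(x, y)` is a prime, up to sign.

Proof: `Pool/Agent/X10/PC` (covering theorem with vanishing weights `W154.PV` of the starting library applied to the
values of several polynomials of different degrees, Mertens' theorem `H474R2.PG` for the number of roots modulo `p`).
-/

namespace Pool.Agent.Results.MP_0da313_nt.CompositeLinePatterns

open Polynomial

/-- `|m| / φ(|m|)` -/
noncomputable def ratio (m : ℤ) : ℝ := (m.natAbs : ℝ) / (Nat.totient m.natAbs : ℝ)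

theorem result (ι : Type) [Finite ι] (f : ι → ℤ[X]) (hf : ∀ i, Irreducible (f i))
    (hd : ∀ i, 0 < (f i).natDegree) :
    ∃ c : ℝ, 0 < c ∧ ∃ X₀ : ℕ, ∀ X : ℕ, X₀ ≤ X →
    ∀ (n : ℤ) (k : ℕ) (j : Fin k → ι) (α β γ : Fin k → ℤ),
    (∀ s, α s ≠ β s ∧ |((α s - β s : ℤ) : ℝ)| ≤ Real.exp (Real.log X ^ 2) ∧
      |((β s * n + γ s : ℤ) : ℝ)| ≤ Real.exp (Real.log X ^ 2)) →
    ∑ s, ratio (α s - β s) ^ (f (j s)).natDegree ≤ c * (Real.log X * Real.log (Real.log X)) →
    ∀ M : ℤ, ∃ x y : ℤ, x + y = n ∧ M < x ∧ x ≤ M + X ∧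
      ∀ s, ¬ Prime ((f (j s)).eval (α s * x + β s * y + γ s)) := by
  obtain ⟨c, hc, X₀, h⟩ := Pool.Agent.X10.PC.core f hf hd
  refine ⟨c, hc, X₀, fun X hX n k j α β γ hab hsum M => ?_⟩
  obtain ⟨x, h1, h2, h3⟩ := h X hX k j (fun s => α s - β s) (fun s => β s * n + γ s)
    (fun s => sub_ne_zero.2 (hab s).1) (fun s => (hab s).2.1) (fun s => (hab s).2.2) hsum M
  refine ⟨x, n - x, by ring, h1, h2, fun s hp => h3 s ?_⟩
  have e : α s * x + β s * (n - x) + γ s = (α s - β s) * x + (β s * n + γ s) := by ring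
  rw [e] at hp
  exact Int.prime_iff_natAbs_prime.1 hp

end Pool.Agent.Results.MP_0da313_nt.CompositeLinePatterns
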