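import Pool.Agent.X32.Fam.Prog

/-!
# Families with two linear members: narrow progressions of representations, for every large `n`

Let `f_1, ..., f_m` be an admissible family of polynomials in `ℤ[x, y]`, of any degrees, of which two, `f_i` and
`f_j`, are linear, `f_j ≠ f_i, - f_i`. Call `x` good for `n` if, with `y = n - x`, `|f_i(x, y)|` is a prime,
`|f_j(x, y)|` is a product of at most two primes, all larger than `n ^ (1 / 9)`, and every `|f_k(x, y)|` is a
product of at most `t deg f_k` primes, all larger than `n ^ (1 / t)`. For every large `n`, every interval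
`(A, B]` with `B < n`, `B - A ≥ θ n`, has good integers, and every set which contains the proportion `δ` of them
contains arithmetic progressions of `k` terms whose difference is at most `(log n) ^ C`, `C = C(k, θ, δ)`.
-/

set_option autoImplicit false

namespace Pool.Agent.Results.MP_0da313_nt.NarrowProgressions

open Finset

variable {m : ℕ}

/-- the value `f(x, n - x)` -/
noncomputable def val (f : MvPolynomial (Fin 2) ℤ) (n : ℕ) (x : ℤ) : ℤ := MvPolynomial.eval ![x, n - x] f

/-- an admissible family: nonconstant polynomials such that, for all large `n`, the one-variable polynomials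
`f_k(X, n - X)` are irreducible in `ℤ[X]` and no prime divides their product for every integer `x` -/
def Admissible (f : Fin m → MvPolynomial (Fin 2) ℤ) : Prop :=
  (∀ k, ∀ c : ℤ, f k ≠ MvPolynomial.C c) ∧ ∃ N₀ : ℕ, ∀ n : ℕ, N₀ ≤ n →
    (∀ k, Irreducible (MvPolynomial.aeval ![Polynomial.X, Polynomial.C (n : ℤ) - Polynomial.X] (f k) :
      Polynomial ℤ)) ∧
    ∀ p : ℕ, p.Prime → ∃ x : ℤ, ¬ (p : ℤ) ∣ ∏ k, val (f k) n x

/-- `f = a x + b y + c` for some integers `a, b, c` -/
def Linear (f : MvPolynomial (Fin 2) ℤ) : Prop :=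
  ∃ a b c : ℤ, f = MvPolynomial.C a * MvPolynomial.X 0 + MvPolynomial.C b * MvPolynomial.X 1 + MvPolynomial.C c

/-- `|v| > 1`, and `|v|` is a product of at most `r` primes, all of them larger than `y` -/
def Almost (r : ℕ) (y : ℝ) (v : ℤ) : Prop :=
  1 < |v| ∧ v.natAbs.primeFactorsList.length ≤ r ∧ ∀ q : ℕ, q.Prime → (q : ℤ) ∣ v → y < q

open Classical in
/-- the integers `x` of `(A, B]` such that, with `y = n - x`, `|f_i(x, y)|` is a prime, `|f_j(x, y)|` is a product
of at most two primes `> n ^ (1 / 9)`, and every `|f_k(x, y)|` is a product of at most `t deg f_k` primes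
`> n ^ (1 / t)` -/
noncomputable def Good (f : Fin m → MvPolynomial (Fin 2) ℤ) (i j : Fin m) (t n A B : ℕ) : Finset ℕ :=
  (Ioc A B).filter (fun x : ℕ => (val (f i) n x).natAbs.Prime ∧
    Almost 2 ((n : ℝ) ^ (1 / 9 : ℝ)) (val (f j) n x) ∧
    ∀ k, Almost (t * (f k).totalDegree) ((n : ℝ) ^ (1 / (t : ℝ))) (val (f k) n x))

/-- For every admissible family with two linear members `f_i`, `f_j ≠ f_i, - f_i`, there is `t` such that for all
`k`, `θ > 0`, `δ > 0` there is `C` such that for every large `n` and every interval `(A, B]` with `B < n`,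
`B - A ≥ θ n`: the set of the good integers of `(A, B]` is not empty, and each of its subsets `S` with at least the
proportion `δ` of its elements contains a progression of `k` terms whose difference is positive and at most
`(log n) ^ C`. -/
theorem result (f : Fin m → MvPolynomial (Fin 2) ℤ) (hf : Admissible f) (i j : Fin m) (hi : Linear (f i))
    (hj : Linear (f j)) (hne : f j ≠ f i) (hne' : f j ≠ - f i) :
    ∃ t : ℕ, 1 ≤ t ∧ ∀ k : ℕ, ∀ θ δ : ℝ, 0 < θ → 0 < δ → ∃ C n₀ : ℕ, ∀ n : ℕ, n₀ ≤ n →
      ∀ A B : ℕ, B < n → θ * n ≤ (B : ℝ) - A →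
        (Good f i j t n A B).Nonempty ∧
        ∀ S : Finset ℕ, S ⊆ Good f i j t n A B → δ * ((Good f i j t n A B).card : ℝ) ≤ S.card →
          ∃ a h : ℕ, 1 ≤ h ∧ (h : ℝ) ≤ Real.log n ^ C ∧ ∀ l < k, a + l * h ∈ S := by
  obtain ⟨a, b, c, hi⟩ := hi
  obtain ⟨a', b', c', hj⟩ := hj
  obtain ⟨hc, N₀, hN⟩ := hf
  have hf' : Pool.Agent.X32.Fam.Admissible f := by
    refine ⟨hc, N₀, fun n hn => ⟨(hN n hn).1, fun p hp => ?_⟩⟩
    obtain ⟨x, hx⟩ := (hN n hn).2 p hp
    refine ⟨x, ?_⟩
    simp only [Pool.Agent.X32.Fam.eval_gp]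
    exact hx
  exact Pool.Agent.X32.Fam.prog f hf' i j a b c a' b' c' hi hj hne hne'

end Pool.Agent.Results.MP_0da313_nt.NarrowProgressions
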